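import Mathlib
import Pool.Agent.R329.RelC.Omega
import Pool.Agent.R329.RelC.Geom

/-!
# Rémond's inequality and divisibility of cyclotomic values

All fields are subfields of `AlgebraicClosure ℚ`. The field `F` is arbitrary, for instance
`F = K(Γ)` for a number field `K` and a subgroup `Γ` of the torus `𝔾_m ^ n`. Let `α` be an algebraic
integer, neither `0` nor a root of unity, `d` its degree over `F`, such that no quotient of two
distinct conjugates of `α` over `F` is a root of unity. Let `T` be a monic polynomial of degree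
`D ≥ 1` with integer coefficients such that `T(X)` divides `T(X ^ l)` for all `l ≥ 1`, for instance
any product of polynomials `X ^ k - 1`, with arbitrarily many factors and with repetitions; let
`q ≥ 2` and `m ≥ 1` be integers such that `T(α ^ m)` is divisible by `q` in the ring of all algebraic
integers. Let `a` be an integer vector of length `n`.

(1) Let `P` be a nonzero polynomial with coefficients in `F` which vanishes on the subset
`V = {y ^ a = α}` of `𝔾_m ^ n` (for `a` primitive, `V` is a translate of a subtorus of codimension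
one). Then `m ∑ deg_i(P) h(y_i) ≥ min (x, x ^ 2 / log (2 d D q)) / 20`, `x = d log q / D`, for all
points `y` of `V`. As the closed subsets over `F` of codimension one which contain `V` are
hypersurfaces, this is Rémond's inequality `ω_F(V) μ_ess(V) ≥ c`, and the constant does not depend
on `n` and `a`, if the right hand side is at least `c m`.

(2) Let `V` be any set of points of `𝔾_m ^ n` on which the monomial `y ^ a` is constant, equal to
`α` (for instance a point, or a translate of a subtorus of any dimension), `|a_i| ≤ A` for all `i`,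
and let `δ ≥ 1` be an integer such that no nonzero polynomial with coefficients in `F` and all
partial degrees less than `δ` vanishes on `V`. Then
`m δ ∑ h(y_i) ≥ min (x, x ^ 2 / log (2 δ D q)) / 20`, `x = δ log q / (A D)`, for all points `y` of `V`.

Method: the Vandermonde determinant of the powers `z ^ (m l)`, `l = 1, …, k`, of the conjugates `z`
of `α` over `F` is divisible by `q ^ (∑ j < k d, ⌊j / D⌋)`, because `T(z ^ m)` divides `T(z ^ (m l))`;
its norm from the Galois closure of `ℚ(α)` to `ℚ` is bounded from above by Hadamard's inequality.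
For (1), a polynomial over `F` in one variable which vanishes at the `z ^ (1 / a_i)` up to a factor
in `F` has degree at least `d |a_i|`.
-/

set_option autoImplicit false

open Polynomial

namespace Pool.Agent.Results.MP_187c26_nt.DivisibleValues

/-- No quotient of two distinct conjugates of `α` over `F` is a root of unity. -/
def Nondegenerate (F : IntermediateField ℚ (AlgebraicClosure ℚ)) (α : AlgebraicClosure ℚ) :
    Prop :=
  ∀ z w : AlgebraicClosure ℚ, z ∈ (minpoly F α).rootSet (AlgebraicClosure ℚ) →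
    w ∈ (minpoly F α).rootSet (AlgebraicClosure ℚ) → z ≠ w → ∀ n : ℕ, 0 < n → z ^ n ≠ w ^ n

/-- `T` is monic, not constant, and `T(X)` divides `T(X ^ l)` for all `l ≥ 1`. -/
def PowerClosed (T : ℤ[X]) : Prop :=
  T.Monic ∧ 1 ≤ T.natDegree ∧ ∀ l : ℕ, 1 ≤ l → T ∣ T.comp (X ^ l)

/-- `T(α ^ m)` is divisible by `q` in the ring of algebraic integers. -/
def DivisibleValue (T : ℤ[X]) (α : AlgebraicClosure ℚ) (m q : ℕ) : Prop :=
  ∃ γ : AlgebraicClosure ℚ, IsIntegral ℤ γ ∧ aeval (α ^ m) T = q * γ

/-- The set of the points `y` of the torus with `y ^ a = α`. -/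
def hyper {n : ℕ} (a : Fin n → ℤ) (α : AlgebraicClosure ℚ) : Set (Fin n → AlgebraicClosure ℚ) :=
  {y | (∀ j, y j ≠ 0) ∧ ∏ j, y j ^ a j = α}

open Pool.Agent.H58P (Qb ht)
open Pool.Agent.H58R (ht_nonneg ht_zpow ht_prod_le ht_one)
open Pool.Agent.R329.RelC

lemma intAlg_eq (R : Type*) [CommRing R] (i j : Algebra ℤ R) : i = j := Subsingleton.elim _ _

lemma aeval_alg_eq (z : Qb) (T : ℤ[X]) (i j : Algebra ℤ Qb) :
    @aeval ℤ Qb _ _ i z T = @aeval ℤ Qb _ _ j z T := by
  rw [intAlg_eq Qb i j]

/-- the main inequality -/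
theorem main (F : IntermediateField ℚ Qb) {α : Qb} (hα : IsIntegral ℤ α) (hh : 0 < ht α)
    (hnd : Nondegenerate F α) {T : ℤ[X]} (hT : PowerClosed T) {q m : ℕ} (hq : 2 ≤ q) (hm : 1 ≤ m)
    (hval : DivisibleValue T α m q) (x : ℝ)
    (hx : x = (minpoly F α).natDegree * Real.log q / T.natDegree) :
    min x (x ^ 2 / Real.log (2 * (minpoly F α).natDegree * T.natDegree * q)) / 20 ≤
      m * ((minpoly F α).natDegree * ht α) := by
  refine mainO (Ω := Qb) (F := F) ht ?_ ?_ hh hnd T hT.1 hT.2.1 hT.2.2 q m hq hm ?_ x hx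
  · intro L _ _ φ z hz
    exact ht_integral φ hz
  · convert hα
    exact intAlg_eq _ _ _
  · obtain ⟨γ, h1, h2⟩ := hval
    refine ⟨γ, ?_, ?_⟩
    · convert h1
      exact intAlg_eq _ _ _
    · exact (aeval_alg_eq _ _ _ _).trans h2

/-- the change from the degree to a lower bound for it -/
lemma lower {d D q δ A : ℕ} (hd : 1 ≤ d) (hD : 1 ≤ D) (hq : 2 ≤ q) (hδ : 1 ≤ δ) (hA : 1 ≤ A)
    (hδA : δ ≤ d * A) {h m x x' : ℝ} (hx : x = d * Real.log q / D)
    (hx' : x' = δ * Real.log q / (A * D))
    (hmain : min x (x ^ 2 / Real.log (2 * d * D * q)) / 20 ≤ m * (d * h)) :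
    min x' (x' ^ 2 / Real.log (2 * δ * D * q)) / 20 ≤ m * (δ / A * h) := by
  have hd' : (1 : ℝ) ≤ d := by exact_mod_cast hd
  have hD' : (1 : ℝ) ≤ D := by exact_mod_cast hD
  have hq' : (2 : ℝ) ≤ q := by exact_mod_cast hq
  have hδ' : (1 : ℝ) ≤ δ := by exact_mod_cast hδ
  have hA' : (1 : ℝ) ≤ A := by exact_mod_cast hA
  have hδA' : (δ : ℝ) ≤ d * A := by exact_mod_cast hδA
  have hlq : 0 < Real.log q := Real.log_pos (by linarith)
  have hDq : 2 ≤ (D : ℝ) * q := by nlinarith
  have hYd : 4 ≤ 2 * (d : ℝ) * D * q := by nlinarith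
  have hYδ : 4 ≤ 2 * (δ : ℝ) * D * q := by nlinarith
  set Ld := Real.log (2 * d * D * q) with hLd
  set Lδ := Real.log (2 * δ * D * q) with hLδ
  have hLd0 : 0 < Ld := Real.log_pos (by linarith)
  have hLδ0 : 0 < Lδ := Real.log_pos (by linarith)
  have hkey : (δ : ℝ) * Ld ≤ A * (d * Lδ) := by
    rcases le_total (d : ℝ) δ with h1 | h1
    · have h2 : Ld ≤ Lδ := Real.log_le_log (by linarith) (by
        have : (d : ℝ) * (D * q) ≤ δ * (D * q) := mul_le_mul_of_nonneg_right h1 (by linarith)
        linarith)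
      calc (δ : ℝ) * Ld ≤ (d * A) * Lδ := mul_le_mul hδA' h2 hLd0.le (by positivity)
        _ = A * (d * Lδ) := by ring
    · have h2 : Real.log (2 * d * D * q) / (2 * d * D * q) ≤
          Real.log (2 * δ * D * q) / (2 * δ * D * q) := by
        have h3 := Real.exp_one_lt_d9
        apply Real.log_div_self_antitoneOn
        · show Real.exp 1 ≤ _
          linarith
        · show Real.exp 1 ≤ _
          linarith
        · have : (δ : ℝ) * (D * q) ≤ d * (D * q) := mul_le_mul_of_nonneg_right h1 (by linarith)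
          linarith
      have h4 : δ * Ld ≤ d * Lδ := by
        rw [div_le_div_iff₀ (by linarith) (by linarith)] at h2
        have h5 : (2 * D * q : ℝ) * (δ * Ld) ≤ (2 * D * q) * (d * Lδ) := by
          calc (2 * D * q : ℝ) * (δ * Ld) = Real.log (2 * d * D * q) * (2 * δ * D * q) := by
                rw [hLd]; ring
            _ ≤ Real.log (2 * δ * D * q) * (2 * d * D * q) := h2
            _ = (2 * D * q) * (d * Lδ) := by rw [hLδ]; ring
        exact le_of_mul_le_mul_left h5 (by positivity)
      have h6 : (0 : ℝ) ≤ d * Lδ := by positivity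
      nlinarith
  have hx0 : 0 < x := by rw [hx]; positivity
  have hx'0 : 0 < x' := by rw [hx']; positivity
  set c : ℝ := δ / (d * A) with hc
  have hc0 : 0 < c := by positivity
  have hxc : x' = c * x := by
    rw [hx', hc, hx]
    field_simp
  have h1 : min x' (x' ^ 2 / Lδ) ≤ c * min x (x ^ 2 / Ld) := by
    rw [mul_min_of_nonneg _ _ hc0.le, ← hxc]
    refine min_le_min le_rfl ?_
    have e1 : c * (x ^ 2 / Ld) = x' * (x / Ld) := by rw [hxc]; ring
    have e2 : x' ^ 2 / Lδ = x' * (x' / Lδ) := by ring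
    rw [e1, e2]
    apply mul_le_mul_of_nonneg_left _ hx'0.le
    rw [div_le_div_iff₀ hLδ0 hLd0, hx', hx]
    have e3 : (δ : ℝ) * Real.log q / (A * D) * Ld = (Real.log q / (A * D)) * (δ * Ld) := by ring
    have e4 : (d : ℝ) * Real.log q / D * Lδ = (Real.log q / (A * D)) * (A * (d * Lδ)) := by
      field_simp
    rw [e3, e4]
    exact mul_le_mul_of_nonneg_left hkey (by positivity)
  calc min x' (x' ^ 2 / Lδ) / 20 ≤ c * min x (x ^ 2 / Ld) / 20 := by
        exact div_le_div_of_nonneg_right h1 (by norm_num)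
    _ = c * (min x (x ^ 2 / Ld) / 20) := by ring
    _ ≤ c * (m * (d * h)) := mul_le_mul_of_nonneg_left hmain hc0.le
    _ = m * (δ / A * h) := by
        rw [hc]
        field_simp

theorem result (F : IntermediateField ℚ (AlgebraicClosure ℚ)) (α : AlgebraicClosure ℚ)
    (hα : IsIntegral ℤ α) (hh : 0 < NumberField.absLogHeight₁ α) (hnd : Nondegenerate F α)
    (T : ℤ[X]) (hT : PowerClosed T) (q m : ℕ) (hq : 2 ≤ q) (hm : 1 ≤ m)
    (hval : DivisibleValue T α m q) (n : ℕ) (a : Fin n → ℤ) :
    -- (1) translates of subtori of codimension one, by hypersurfaces over `F`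
    (∀ P : MvPolynomial (Fin n) F, P ≠ 0 → (∀ y ∈ hyper a α, MvPolynomial.aeval y P = 0) →
      ∀ x : ℝ, x = (minpoly F α).natDegree * Real.log q / T.natDegree →
      ∀ y ∈ hyper a α,
        min x (x ^ 2 / Real.log (2 * (minpoly F α).natDegree * T.natDegree * q)) / 20 ≤
          m * ∑ i, (P.degreeOf i : ℝ) * NumberField.absLogHeight₁ (y i)) ∧
    -- (2) sets of points on which the monomial is constant
    (∀ V : Set (Fin n → AlgebraicClosure ℚ), V ⊆ hyper a α →
      ∀ A : ℕ, (∀ j, |a j| ≤ A) → ∀ δ : ℕ, 1 ≤ δ →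
      (∀ P : MvPolynomial (Fin n) F, P ≠ 0 → (∀ y ∈ V, MvPolynomial.aeval y P = 0) →
        ∃ i, δ ≤ P.degreeOf i) →
      ∀ x : ℝ, x = δ * Real.log q / (A * T.natDegree) →
      ∀ y ∈ V, min x (x ^ 2 / Real.log (2 * δ * T.natDegree * q)) / 20 ≤
        m * (δ * ∑ i, NumberField.absLogHeight₁ (y i))) := by
  have hht : ∀ w : AlgebraicClosure ℚ, NumberField.absLogHeight₁ w = ht w := fun w =>
    Pool.Agent.H58P.absLogHeight₁_eq _
  simp only [hht] at hh ⊢
  have hQ : Algebra.IsAlgebraic ℚ Qb := by
    refine ⟨fun z => ?_⟩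
    have h1 := Pool.Agent.H58P.qb_isIntegral z
    have h2 : IsIntegral ℚ z := by convert h1
    exact h2.isAlgebraic
  have : Algebra.IsAlgebraic F Qb := Algebra.IsAlgebraic.tower_top (K := ℚ) F
  have : IsAlgClosure F Qb := ⟨inferInstance, inferInstance⟩
  have hnormal : Normal F Qb := IsAlgClosure.normal F Qb
  have hαF : IsIntegral F α := hnormal.isIntegral α
  have hd0 : 1 ≤ (minpoly F α).natDegree := minpoly.natDegree_pos hαF
  have hα0 : α ≠ 0 := by
    rintro rfl
    have h0 : ht (0 : Qb) = 0 := by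
      have h1 := Pool.Agent.H58B.ht_pow (0 : Qb) 2
      rw [zero_pow two_ne_zero] at h1
      push_cast at h1
      linarith
    rw [h0] at hh
    exact lt_irrefl _ hh
  have hm0 : (0 : ℝ) ≤ m := Nat.cast_nonneg m
  -- the height of a point of the hypersurface
  have hprod : ∀ y ∈ hyper a α, ht α ≤ ∑ i, |(a i : ℝ)| * ht (y i) := by
    intro y hy
    rw [← hy.2]
    refine (ht_prod_le _ _).trans (Finset.sum_le_sum fun i _ => ?_)
    rw [ht_zpow _ (hy.1 i)]
  refine ⟨?_, ?_⟩
  · intro P hP hPV x hx y hy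
    have h1 := main F hα hh hnd hT hq hm hval x hx
    refine h1.trans (mul_le_mul_of_nonneg_left ?_ hm0)
    calc ((minpoly F α).natDegree : ℝ) * ht α
        ≤ (minpoly F α).natDegree * ∑ i, |(a i : ℝ)| * ht (y i) :=
          mul_le_mul_of_nonneg_left (hprod y hy) (Nat.cast_nonneg _)
      _ = ∑ i, ((minpoly F α).natDegree * |(a i : ℝ)|) * ht (y i) := by
          rw [Finset.mul_sum]
          refine Finset.sum_congr rfl fun i _ => ?_
          ring
      _ ≤ ∑ i, (P.degreeOf i : ℝ) * ht (y i) := by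
          refine Finset.sum_le_sum fun i _ => mul_le_mul_of_nonneg_right ?_ (ht_nonneg _)
          have h2 := degreeOf_ge (Ω := Qb) P hP a i hα0 (fun y h3 h4 => hPV y ⟨h3, h4⟩)
          have h3 : |(a i : ℝ)| = ((a i).natAbs : ℝ) := by
            rw [← Int.cast_abs, Int.abs_eq_natAbs]
            simp
          rw [h3]
          exact_mod_cast h2
  · intro V hV A hA δ hδ hobs x hx y hy
    -- `a` is not zero
    obtain ⟨i₀, hi₀⟩ : ∃ i, a i ≠ 0 := by
      by_contra hcon
      push Not at hcon
      have h1 := (hV hy).2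
      have h2 : (1 : Qb) = α := by
        rw [← h1]
        symm
        apply Finset.prod_eq_one
        intro j _
        rw [hcon j, zpow_zero]
      rw [← h2, ht_one] at hh
      exact lt_irrefl _ hh
    have hA1 : 1 ≤ A := by
      have h1 := hA i₀
      have h2 : 1 ≤ |a i₀| := Int.one_le_abs hi₀
      omega
    have hδA : δ ≤ (minpoly F α).natDegree * A := by
      obtain ⟨i, hi⟩ := hobs (pull (minpoly F α) a)
        (pull_ne_zero (Ω := Qb) _ (minpoly.ne_zero hαF) a i₀ hi₀) (fun y hy => by
          rw [pull_aeval _ _ _ (hV hy).1, (hV hy).2, minpoly.aeval, mul_zero])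
      refine hi.trans ((pull_degreeOf _ a i).trans (Nat.mul_le_mul_left _ ?_))
      have h1 := hA i
      rw [Int.abs_eq_natAbs] at h1
      exact_mod_cast h1
    have h1 := lower hd0 hT.2.1 hq hδ hA1 hδA rfl hx (main F hα hh hnd hT hq hm hval _ rfl)
    refine h1.trans (mul_le_mul_of_nonneg_left ?_ hm0)
    have hA' : (0 : ℝ) < A := by exact_mod_cast hA1
    have h2 : ht α ≤ A * ∑ i, ht (y i) := by
      refine (hprod y (hV hy)).trans ?_
      rw [Finset.mul_sum]
      refine Finset.sum_le_sum fun i _ => mul_le_mul_of_nonneg_right ?_ (ht_nonneg _)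
      have h3 := hA i
      rw [← Int.cast_abs]
      exact_mod_cast h3
    calc (δ : ℝ) / A * ht α ≤ δ / A * (A * ∑ i, ht (y i)) :=
          mul_le_mul_of_nonneg_left h2 (by positivity)
      _ = δ * ∑ i, ht (y i) := by
          field_simp

end Pool.Agent.Results.MP_187c26_nt.DivisibleValues
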