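import Pool.Agent.R870.AP.Div3

/-!
# MP_187c26_nt: almost all systems of Laurent polynomials have no point near the groups of finite
rank contained in the division group of `⟨g⟩ ^ n`

Let `G = 𝔾_m ^ n` with the height `h_G (x) = ∑ h (x_l)`, let `g` be an algebraic number of positive
height, and let `Γ ⊂ G` be the division group (the saturation) of `⟨g⟩ ^ n`, a group of rank `n`: it
consists of the points all of whose coordinates `γ_l` satisfy `γ_l ^ m = g ^ a`, `m ≥ 1`. For arbitrary
finite nonempty supports `A_1, …, A_k ⊂ ℤ ^ n`, `N = ∑ |A_j|`, and an integral vector `c` let `V_c` be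
the subvariety of `G` given by the Laurent polynomials `∑_{α ∈ A_j} c_jα x ^ α`.

For all but `C exp (κ B) (log (H + 2)) ^ N (2 H + 1) ^ (N - k)` of the `(2 H + 1) ^ N` integral vectors
`c` of size at most `H` we show: `h_G (w) > B` for all algebraic points `x = γ w` of `V_c`, `γ ∈ Γ`. That
is, all algebraic points of `V_c` (of arbitrary degree) have the distance `> B` from `Γ`. For
`B = θ log H`, `θ < k / κ`, these are `100 %` of the systems.

In other words, for all `γ ∈ Γ` all points of the translates `γ⁻¹ V_c` have height `> B`; so all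
subvarieties `W` of these translates, of any dimension, have `μ_ess (W) ≥ B`, and, as `ω_L (W) ≥ 1`,
they satisfy the inequality `ω_L (W) μ_ess (W) ≥ B` of Rémond's conjecture. In particular
`V_c ∩ Γ = ∅` (Mordell-Lang for `V_c` and all groups of finite rank contained in `Γ`).

Proof: By the gap principle a relation `∑ c_j γ_j u_j = 0` with `γ_j ∈ Γ` and small `u_j` splits into
relations for which the quotients `γ_i / γ_j` have height `O (log H)`; so `γ_i / γ_j = g ^ q v` with an
integer `q = O (log H)` and a `v` of bounded height. For given `q`'s a relation of the form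
`∑ c_i g ^ (q_i) y_i = 0` with algebraic `y_i` of bounded height implies a relation of `c` with a rational
vector from a finite set which is independent of `H` (`descend`).
-/

set_option autoImplicit false

namespace Pool.Agent.Results.MP_187c26_nt.NearDivisionGroups

open Pool.Agent.R870.AP
open Pool.Agent.R870.RZ (Coeff)

/-- `x` lies in the division group of the group generated by `g`. -/
def InDivisionGroup (g x : AlgebraicClosure ℚ) : Prop :=
  ∃ m : ℕ, 0 < m ∧ ∃ a : ℤ, x ^ m = g ^ a

/-- Let `g` be an algebraic number of positive height (that is, `g` is not zero and not a root of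
unity), let `A_1, …, A_k ⊂ ℤ ^ n` be finite and nonempty and `N = ∑ |A_j|`. There are `C`, `κ` such that
for all `H` and `B ≥ 0`, for all but `C exp (κ B) (log (H + 2)) ^ N (2 H + 1) ^ (N - k)` integral vectors
`c` of size at most `H`: if `x = γ w` is an algebraic point of `V_c` where all coordinates of `γ` lie in
the division group of `⟨g⟩`, then `∑ h (w_l) > B`. -/
theorem result {n k : ℕ} (g : AlgebraicClosure ℚ) (hg : 0 < NumberField.absLogHeight₁ g)
    (A : Fin k → Finset (Fin n → ℤ)) (hA : ∀ j, (A j).Nonempty) :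
    ∃ C κ : ℝ, ∀ (H : ℕ) (B : ℝ), 0 ≤ B → ∃ E : Finset (Coeff A → ℤ),
      (E.card : ℝ) * (2 * H + 1) ^ k ≤ C * Real.exp (κ * B) *
        Real.log (H + 2) ^ (∑ j, (A j).card) * (2 * H + 1) ^ ∑ j, (A j).card ∧
      ∀ c : Coeff A → ℤ, (∀ i, |c i| ≤ H) → c ∉ E →
        ∀ γ w : Fin n → AlgebraicClosure ℚ, (∀ l, InDivisionGroup g (γ l)) → (∀ l, w l ≠ 0) →
          (∀ j, ∑ α : {α // α ∈ A j}, (c ⟨j, α⟩ : AlgebraicClosure ℚ) *
            ∏ l, (γ l * w l) ^ (α : Fin n → ℤ) l = 0) →
          B < ∑ l, NumberField.absLogHeight₁ (w l) := by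
  rw [abs1_eq] at hg
  have hg0 : g ≠ 0 := by
    rintro rfl
    rw [ht_zero] at hg
    exact lt_irrefl _ hg
  obtain ⟨C, κ, hC⟩ := div_main (n := n) g hg0 hg A hA
  refine ⟨C, κ, fun H B hB => ?_⟩
  obtain ⟨E, hE, hE'⟩ := hC H B hB
  refine ⟨E, hE, fun c hc hcE γ w hγ hw h0 => ?_⟩
  have h1 := hE' c hc hcE γ w hγ hw h0
  simp only [abs1_eq]
  exact h1

end Pool.Agent.Results.MP_187c26_nt.NearDivisionGroups
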