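import Mathlib
import Pool.Agent.R976.MP.Torsion

/-!
# A relative Lehmer bound over fields generated by the torsion of several elliptic curves

Let `K` be a number field and `v` a finite place of `K` above the prime number `p`. We consider

* the elliptic curves over `K` with supersingular reduction at `v` (in the sense that the
  multiplication by `p` on first coordinates has good, purely inseparable reduction at `v` in some
  coordinates over `K`), in any number, and the groups `Γ` of torsion points of order prime to `p`
  of their products;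
* the endomorphisms of projective spaces of dimension at most `R` over `K`, of degrees `p ^ s`
  with `1 ≤ s ≤ R`, with good, purely inseparable reduction at `v` in some coordinates over `K`,
  and their periodic points.

Let `E` be a Galois extension of `K` (a number field) which is generated over `K` by coordinates of
torsion points of order prime to `p` of such elliptic curves, by coordinates of periodic points of
such maps and by elements of abelian extensions of `K`, and let `e` be a bound for the ramification
indices of `E` over `K` at the primes above `v` (one can take `e = 2 ^ n` if `E` is generated by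
torsion points of `n` curves and periodic points). Let `W` be an elliptic curve over `K` with
potentially supersingular reduction at `v` and `N` a field generated over `E` by coordinates of
torsion points of `W` of order prime to `p`. Then the Néron-Tate height of every point of infinite
order of `W` of degree `D` over `N` is at least `exp (- C * sqrt (1 + log D)) / (C * e * D)`, where
`C` depends only on `K`, `v`, `R` and `W`, but not on `E` and `N`, hence not on the other curves and
their number.

The proof shows that a fixed power of every Frobenius element above `v` is in the centre of the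
Galois group of `E` over `K`.
-/

set_option autoImplicit false

namespace Pool.Agent.Results.MP_187c26_nt.TorsionOfSeveralCurves

open NumberField Module Filter Topology
open scoped Pointwise

/-- A tuple `G` of `M + 1` forms of degree `q` over the number field `k` has *good, purely
inseparable reduction* at the finite place `v`: all coefficients are `v`-integral, those of the
monomials which are not of the form `X_j ^ q` are in the maximal ideal, and the determinant of the
coefficients of the `X_j ^ q` is a unit at `v`. -/
def GoodInseparable {k : Type} [Field k] [NumberField k] {M : ℕ} (v : FinitePlace k) (q : ℕ)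
    (G : Fin (M + 1) → MvPolynomial (Fin (M + 1)) k) : Prop :=
  (∀ i m, v ((G i).coeff m) ≤ 1) ∧
  (∀ i m, (∀ j, m ≠ Finsupp.single j q) → v ((G i).coeff m) < 1) ∧
  v (Matrix.det (Matrix.of fun i j => (G i).coeff (Finsupp.single j q))) = 1

/-- The tuple `F` of forms of degree `q` over `K` has good, purely inseparable reduction at the
place `v` *in some coordinates over `K`*: there are an invertible matrix `A` over `K` and a tuple
`G` of forms of degree `q` over `K` with `A ∘ F = G ∘ A` which has good, purely inseparable
reduction at `v`. -/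
def InseparableOver {K : Type} [Field K] [NumberField K] {M : ℕ} (v : FinitePlace K) (q : ℕ)
    (F : Fin (M + 1) → MvPolynomial (Fin (M + 1)) K) : Prop :=
  (∀ i, (F i).IsHomogeneous q) ∧
  ∃ (A : Matrix (Fin (M + 1)) (Fin (M + 1)) K) (G : Fin (M + 1) → MvPolynomial (Fin (M + 1)) K),
    A.det ≠ 0 ∧ (∀ i, (G i).IsHomogeneous q) ∧
    (∀ i, ∑ j, MvPolynomial.C (A i j) * F j =
      MvPolynomial.bind₁ (fun l => ∑ j, MvPolynomial.C (A l j) * MvPolynomial.X j) (G i)) ∧
    GoodInseparable v q G

/-- The pair `F` of forms of degree `q` over `K` has *potentially good, purely inseparable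
reduction* above the place `v` of `K`: the same with an invertible matrix `A` and a pair `G` over
some number field `K'` containing `K`, for a finite place `w` of `K'` above `v` (and above `p`). -/
def PotentiallyInseparable {K : Type} [Field K] [NumberField K] (v : FinitePlace K) (p q : ℕ)
    (F : Fin 2 → MvPolynomial (Fin 2) K) : Prop :=
  ∃ (K' : Type) (_ : Field K') (_ : NumberField K') (_ : Algebra K K')
    (A : Matrix (Fin 2) (Fin 2) K') (G : Fin 2 → MvPolynomial (Fin 2) K') (w : FinitePlace K'),
    A.det ≠ 0 ∧ (∀ i, (G i).IsHomogeneous q) ∧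
    (∀ i, ∑ j, MvPolynomial.C (A i j) * MvPolynomial.map (algebraMap K K') (F j) =
      MvPolynomial.bind₁ (fun l => ∑ j, MvPolynomial.C (A l j) * MvPolynomial.X j) (G i)) ∧
    w.maximalIdeal.asIdeal.under (𝓞 K) = v.maximalIdeal.asIdeal ∧ w (p : K') < 1 ∧
    GoodInseparable (M := 1) w q G

/-- the map defined by a tuple of forms, on coordinate vectors over an extension -/
noncomputable def evalMap {K L : Type} [Field K] [Field L] [Algebra K L] {M : ℕ}
    (F : Fin (M + 1) → MvPolynomial (Fin (M + 1)) K) (y : Fin (M + 1) → L) : Fin (M + 1) → L :=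
  fun i => MvPolynomial.aeval y (F i)

/-- the point with coordinate vector `y` is periodic -/
def Periodic {K L : Type} [Field K] [Field L] [Algebra K L] {M : ℕ}
    (F : Fin (M + 1) → MvPolynomial (Fin (M + 1)) K) (y : Fin (M + 1) → L) : Prop :=
  y ≠ 0 ∧ ∃ j : ℕ, 1 ≤ j ∧ ∃ c : L, c ≠ 0 ∧ (evalMap F)^[j] y = c • y

/-- the (affine) coordinates `y i / y j` of the periodic points over `E` of all the endomorphisms
of `P^M` over `K`, `M ≤ R`, of degrees `p ^ s`, `1 ≤ s ≤ R`, with good, purely inseparable
reduction at `v` in some coordinates over `K` -/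
def allPeriodic {K : Type} [Field K] [NumberField K] (v : FinitePlace K) (p R : ℕ) (E : Type)
    [Field E] [Algebra K E] : Set E :=
  {t | ∃ (M s : ℕ) (G : Fin (M + 1) → MvPolynomial (Fin (M + 1)) K) (y : Fin (M + 1) → E),
    M ≤ R ∧ 1 ≤ s ∧ s ≤ R ∧ InseparableOver v (p ^ s) G ∧ Periodic G y ∧
    ∃ i j, y j ≠ 0 ∧ t = y i / y j}

/-- the elements of `E` on which all automorphisms over `K` commute; for a Galois extension `E` of
`K` they form the largest subfield of `E` which is an abelian extension of `K` -/
def abelianSet (K : Type) [Field K] (E : Type) [Field E] [Algebra K E] : Set E :=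
  {t | ∀ σ τ : Gal(E/K), σ (τ t) = τ (σ t)}

/-- the coordinate vector `(x : 1)` of the first coordinate of a point of the curve `W` over `L`,
and `(1 : 0)` for the point at infinity -/
noncomputable def xCoord {L : Type} [Field L] {W : WeierstrassCurve.Affine L} :
    W.Point → Fin 2 → L
  | .zero => ![1, 0]
  | .some x _ _ => ![x, 1]

open Classical in
/-- the pair `F` of forms of degree `p ^ 2` gives the multiplication by `p` of the curve `W` on
first coordinates, `x(p P) = F(x(P))`, for the points over all number fields containing `K` -/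
def IsMultiplication {K : Type} [Field K] [NumberField K] (W : WeierstrassCurve.Affine K) (p : ℕ)
    (F : Fin 2 → MvPolynomial (Fin 2) K) : Prop :=
  (∀ i, (F i).IsHomogeneous (p ^ 2)) ∧
  ∀ (L : Type) [Field L] [NumberField L] [Algebra K L] (P : (W.baseChange L).Point),
    ∃ c : L, c ≠ 0 ∧ evalMap (M := 1) F (xCoord P) = c • xCoord (p • P)

/-- The curve `W` is *supersingular at `v`*, in coordinates over `K`: the pair of forms which gives
the multiplication by `p` on first coordinates has good, purely inseparable reduction at `v` in
some coordinates over `K`. -/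
def SupersingularAt {K : Type} [Field K] [NumberField K] (v : FinitePlace K) (p : ℕ)
    (W : WeierstrassCurve.Affine K) : Prop :=
  ∃ F : Fin 2 → MvPolynomial (Fin 2) K,
    IsMultiplication W p F ∧ InseparableOver (M := 1) v (p ^ 2) F

/-- The curve `W` is *potentially supersingular at `v`*: the pair of forms which gives the
multiplication by `p` on first coordinates has potentially good, purely inseparable reduction above
`v`. -/
def PotentiallySupersingular {K : Type} [Field K] [NumberField K] (v : FinitePlace K) (p : ℕ)
    (W : WeierstrassCurve.Affine K) : Prop :=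
  ∃ F : Fin 2 → MvPolynomial (Fin 2) K,
    IsMultiplication W p F ∧ PotentiallyInseparable v p (p ^ 2) F

open Classical in
/-- `h` is the Néron-Tate height (relative to the origin) of the point `P` over the number field
`L`, computed with the multiplication by `m`: half the limit of `h(x(m ^ k P)) / m ^ (2 k)`, where
`h` is the absolute logarithmic Weil height, that is Mathlib's (relative) `Height.logHeight`
divided by `[L : ℚ]` -/
def IsNeronTateHeight {L : Type} [Field L] [NumberField L] {W : WeierstrassCurve.Affine L}
    (m : ℕ) (P : W.Point) (h : ℝ) : Prop :=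
  Tendsto (fun k : ℕ => Height.logHeight (xCoord (m ^ k • P)) /
    (2 * (finrank ℚ L : ℝ) * (m : ℝ) ^ (2 * k))) atTop (𝓝 h)

open Classical in
/-- `t` is a coordinate of a point of order prime to `p` of the curve `W` over the field `N` -/
def IsTorsionCoordinate {K : Type} [Field K] [NumberField K] (W : WeierstrassCurve.Affine K)
    (p : ℕ) {N : Type} [Field N] [NumberField N] [Algebra K N] (t : N) : Prop :=
  ∃ (x y : N) (h : (W.baseChange N).Nonsingular x y),
    (∃ m : ℕ, m.Coprime p ∧ m • (WeierstrassCurve.Affine.Point.some x y h :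
      (W.baseChange N).Point) = 0) ∧ (t = x ∨ t = y)

/-- the coordinates of all torsion points over `E` of order prime to `p` of all curves over `K`
which are supersingular at `v` -/
def allTorsion {K : Type} [Field K] [NumberField K] (v : FinitePlace K) (p : ℕ) (E : Type)
    [Field E] [NumberField E] [Algebra K E] : Set E :=
  {t | ∃ W : WeierstrassCurve.Affine K, SupersingularAt v p W ∧ IsTorsionCoordinate W p t}

/-- The number `e` bounds the ramification of `E` over `K` above `v`: all ramification indices above
`v` are at most `e`, or `E` is generated by coordinates of torsion points of order prime to `p` of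
`n` curves which are supersingular at `v`, with `2 ^ n ≤ e`, and coordinates of periodic points. -/
def Ramification {K : Type} [Field K] [NumberField K] (v : FinitePlace K) (p R : ℕ) (E : Type)
    [Field E] [NumberField E] [Algebra K E] (e : ℕ) : Prop :=
  (∀ 𝔓 : Ideal (𝓞 E), 𝔓.IsMaximal → 𝔓.LiesOver v.maximalIdeal.asIdeal →
    𝔓.ramificationIdx (𝓞 K) ≤ e) ∨
  ∃ (n : ℕ) (Ws : Fin n → WeierstrassCurve.Affine K), 2 ^ n ≤ e ∧
    (∀ i, SupersingularAt v p (Ws i)) ∧
    Algebra.adjoin K (allPeriodic v p R E ∪ {t | ∃ i, IsTorsionCoordinate (Ws i) p t}) = ⊤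

lemma allPeriodic_sub {K : Type} [Field K] [NumberField K] (v : FinitePlace K) (p R : ℕ) (E : Type)
    [Field E] [Algebra K E] :
    allPeriodic v p R E ⊆ Pool.Agent.R976.MP.Proj.PerGenN v p R E := by
  rintro t ⟨M, s, F, y, hM, hs, hsR, ⟨hF, A, G, hA, hG, hconj, h1, h2, h3⟩,
    ⟨-, j, hj, c, -, hper⟩, i, k, hk, rfl⟩
  refine ⟨M, F, y, hM, ⟨s, hs, hsR, hF, A, G, hA, hG, ?_, ⟨h1, h2, h3⟩⟩, ⟨j, hj, c, hper⟩,
    i, k, hk, rfl⟩
  intro i
  rw [← hconj i]
  refine Finset.sum_congr rfl fun j _ => ?_
  rw [Algebra.algebraMap_self, MvPolynomial.map_id]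

lemma xCoord_eq (M : Type) [Field M] (V : WeierstrassCurve.Affine M) (Q : V.Point) :
    xCoord Q = Pool.Agent.Y740.RL.xc Q := by
  cases Q <;> rfl

lemma sup_of {K : Type} [Field K] [NumberField K] {v : FinitePlace K} {p : ℕ}
    {W : WeierstrassCurve.Affine K} (h : SupersingularAt v p W) :
    ∃ F, Pool.Agent.R976.MP.Proj.Sup v p W F := by
  obtain ⟨F, ⟨hF, hmul⟩, -, A, G, hA, hG, hconj, h1, h2, h3⟩ := h
  refine ⟨F, hF, ?_, A, G, hA, hG, ?_, ⟨h1, h2, h3⟩⟩
  · intro M _ _ _ Q
    obtain ⟨c, hc, hc'⟩ := hmul M Q
    rw [xCoord_eq, xCoord_eq] at hc'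
    exact ⟨c, hc, hc'⟩
  · intro i
    rw [← hconj i]
    refine Finset.sum_congr rfl fun j _ => ?_
    rw [Algebra.algebraMap_self, MvPolynomial.map_id]

lemma allTorsion_sub {K : Type} [Field K] [NumberField K] (v : FinitePlace K) (p : ℕ) (E : Type)
    [Field E] [NumberField E] [Algebra K E] :
    allTorsion v p E ⊆ Pool.Agent.R976.MP.Proj.TorGen v p E := by
  rintro t ⟨W, hW, ht⟩
  obtain ⟨F, hF⟩ := sup_of hW
  exact ⟨W, F, hF, ht⟩

lemma adjoin_mono {K E : Type} [Field K] [Field E] [Algebra K E] {S T : Set E} (h : S ⊆ T)
    (hS : Algebra.adjoin K S = ⊤) : Algebra.adjoin K T = ⊤ := by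
  rw [eq_top_iff, ← hS]
  exact Algebra.adjoin_mono h

open Classical in
/-- **Main result.** -/
theorem result (K : Type) [Field K] [NumberField K] (p : ℕ) (hp : p.Prime)
    (v : FinitePlace K) (hv : v (p : K) < 1) (R : ℕ) (W : WeierstrassCurve.Affine K)
    [W.IsElliptic] (hss : PotentiallySupersingular v p W) :
    ∃ C : ℝ, 0 < C ∧ ∀ (E N L : Type) [Field E] [NumberField E] [Field N] [NumberField N]
      [Field L] [NumberField L] [Algebra K E] [Algebra K N] [Algebra K L] [Algebra E N]
      [Algebra N L] [IsScalarTower K E N] [IsScalarTower K N L] [IsGalois K E],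
      Algebra.adjoin K (abelianSet K E ∪ allPeriodic v p R E ∪ allTorsion v p E) = ⊤ →
      Algebra.adjoin E {t : N | IsTorsionCoordinate W p t} = ⊤ →
      ∀ P : (W.baseChange L).Point, ¬ IsOfFinAddOrder P →
      ∃ h : ℝ, IsNeronTateHeight p P h ∧ ∀ e : ℕ, Ramification v p R E e →
        Real.exp (-(C * Real.sqrt (1 + Real.log (finrank N L)))) / (C * e * finrank N L) ≤ h := by
  obtain ⟨a, ha, hcen⟩ := Pool.Agent.R976.MP.Proj.centralT v hp hv R
  obtain ⟨F, ⟨hF, hmul⟩, K', i1, i2, i3, A, G, w, hA, hG, hconj, hw, hwp, h1, h2, h3⟩ := hss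
  have hw' : (Pool.Agent.H420R3.mi w).under (𝓞 K) = Pool.Agent.H420R3.mi v := hw
  have hred : Pool.Agent.H420R3.InsepAt w (p ^ 2) G := by
    refine ⟨h1, fun i m hm0 hm1 => h2 i m ?_, ?_⟩
    · intro j
      fin_cases j
      · exact hm0
      · exact hm1
    · rw [Matrix.det_fin_two] at h3
      exact h3
  obtain ⟨C, hC, hmain⟩ := Pool.Agent.Y740.RL.torsion_topE W hp F hF K' A hA G hG hconj
    w hwp hred 1 a ha
  rw [hw'] at hmain
  refine ⟨2 * C, by positivity, ?_⟩
  intro E N L _ _ _ _ _ _ _ _ _ _ _ _ _ _ hgenE hgen P hP
  have hfew : Pool.Agent.Y740.RL.FewConj (Pool.Agent.H420R3.mi v) E 1 a := hcen E (adjoin_mono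
    (Set.union_subset_union (Set.union_subset_union_right _ (allPeriodic_sub v p R E))
      (allTorsion_sub v p E)) hgenE)
  have hmul' : ∀ (M : Type) [Field M] [NumberField M] [Algebra K M]
      (Q : (W.baseChange M).Point), ∃ c : M, c ≠ 0 ∧
      Pool.Agent.H420R3.act F (Pool.Agent.Y740.RL.xc Q) =
        c • Pool.Agent.Y740.RL.xc (p • Q) := by
    intro M _ _ _ Q
    obtain ⟨c, hc, hc'⟩ := hmul M Q
    rw [xCoord_eq, xCoord_eq] at hc'
    exact ⟨c, hc, hc'⟩
  obtain ⟨h, hlim, hb⟩ := hmain E N L hfew (hmul' N) (hmul' L) hgen P hP
  refine ⟨h / 2, ?_, fun e he => ?_⟩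
  · unfold IsNeronTateHeight
    refine (hlim.div_const 2).congr fun k => ?_
    rw [xCoord_eq, div_div]
    congr 1
    ring
  · have hram : Pool.Agent.Y740.RL.RamLe (Pool.Agent.H420R3.mi v) E e := by
      rcases he with he | ⟨n, Ws, hn, hs, hgen'⟩
      · exact he
      · have h4 := Pool.Agent.R976.MP.Proj.ramT v hp hv R E Ws (fun i => sup_of (hs i))
          (adjoin_mono (Set.union_subset_union_left _ (allPeriodic_sub v p R E)) hgen')
        intro 𝔓 h𝔓 hlo
        exact (h4 𝔓 h𝔓 hlo).trans hn
    have hexp : Real.exp (-(2 * C * Real.sqrt (1 + Real.log (finrank N L)))) ≤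
        Real.exp (-(C * Real.sqrt (1 + Real.log (finrank N L)))) := by
      apply Real.exp_le_exp.mpr
      have : 0 ≤ C * Real.sqrt (1 + Real.log (finrank N L : ℝ)) := by positivity
      linarith
    have hD : (0 : ℝ) < finrank N L := by exact_mod_cast (finrank_pos : 0 < finrank N L)
    calc Real.exp (-(2 * C * Real.sqrt (1 + Real.log (finrank N L)))) /
          (2 * C * e * finrank N L) ≤
        Real.exp (-(C * Real.sqrt (1 + Real.log (finrank N L)))) /
          (2 * C * e * finrank N L) := by gcongr
      _ = (Real.exp (-(C * Real.sqrt (1 + Real.log (finrank N L)))) /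
          (C * e * finrank N L)) / 2 := by
          rw [div_div]
          congr 1
          ring
      _ ≤ h / 2 := by
          have := hb e hram
          gcongr

end Pool.Agent.Results.MP_187c26_nt.TorsionOfSeveralCurves
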