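import Mathlib
import Pool.Agent.Results.MP_f61260_nt.SmoothRootsPoly
import Pool.Agent.Results.MP_187c26_nt.RadicalTranslates

set_option autoImplicit false

/-!
# A polynomial form of Rémond's inequality for translates of subtori

All fields are subfields of `AlgebraicClosure ℚ`; `G` is the torus of dimension `n`. The groups are
`Λ^n`, where `Λ` lies between a finitely generated group `Γ` and the group generated by all roots
of unity and all `m`-th roots of elements of `Γ`, `m` composed of finitely many primes.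
The degree one case is the theorem of `Pool/Agent/Results/MP_f61260_nt/SmoothRootsPoly.lean`.
-/

namespace Pool.Agent.Results.MP_187c26_nt.TranslatesBoundedDegree

open Pool.Agent.Results.MP_f61260_nt.SmoothRootsPoly
open Pool.Agent.Results.MP_187c26_nt.RadicalTranslates (translate exists_exponent mono_eval chi
  chi_apply)
open Pool.Agent.H58P (Qb ht)
open Pool.Agent.H58R (ht_nonneg ht_zpow ht_prod_le)
open Pool.Agent.W237.RK
open Pool.Agent.TH53.RP

/-- the group generated by all roots of unity and by all `m`-th roots of all elements of `Γ`, for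
all positive integers `m` all of whose prime factors belong to `P` -/
noncomputable def smoothRootGroup (Γ : Subgroup (AlgebraicClosure ℚ)ˣ) (P : Finset ℕ) :
    Subgroup (AlgebraicClosure ℚ)ˣ :=
  Subgroup.closure ({g | ∃ m : ℕ, 0 < m ∧ g ^ m = 1} ∪
    {g | ∃ m : ℕ, (0 < m ∧ ∀ q : ℕ, q.Prime → q ∣ m → q ∈ P) ∧ g ^ m ∈ Γ})

/-- the group `Λ^n` -/
noncomputable def power (n : ℕ) (Λ : Subgroup (AlgebraicClosure ℚ)ˣ) :
    Subgroup (Fin n → (AlgebraicClosure ℚ)ˣ) :=
  Subgroup.pi Set.univ fun _ => Λ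

/-- `K(Δ)`, the field generated over `K` by the coordinates of the points of `Δ` -/
noncomputable def coordField (K : IntermediateField ℚ (AlgebraicClosure ℚ)) {n : ℕ}
    (Δ : Subgroup (Fin n → (AlgebraicClosure ℚ)ˣ)) : IntermediateField ℚ (AlgebraicClosure ℚ) :=
  K ⊔ IntermediateField.adjoin ℚ {y | ∃ g ∈ Δ, ∃ i, y = (g i : AlgebraicClosure ℚ)}

/-- the saturation of `Δ`: the points a positive power of which lies in `Δ` -/
def saturation {n : ℕ} (Δ : Subgroup (Fin n → (AlgebraicClosure ℚ)ˣ)) :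
    Set (Fin n → (AlgebraicClosure ℚ)ˣ) :=
  {g | ∃ m : ℕ, 0 < m ∧ g ^ m ∈ Δ}

/-- the translate of the subtorus `{(t^(e_1), ..., t^(e_n))}` by the point `x` lies in the torus and
is not contained in a proper torsion subvariety relative to `Δ`: no character `y ↦ y^v`, `v ≠ 0`, of
the torus, takes on the whole translate one value which it also takes at a point of the saturation
of `Δ` -/
def IsTransverse {n d : ℕ} (Δ : Subgroup (Fin n → (AlgebraicClosure ℚ)ˣ))
    (x : Fin n → AlgebraicClosure ℚ) (e : Fin n → Fin d → ℤ) : Prop :=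
  (∀ i, x i ≠ 0) ∧ ∀ v : Fin n → ℤ, v ≠ 0 → ∀ γ ∈ saturation Δ,
    ∃ y ∈ translate x e, ∏ i, y i ^ v i ≠ ∏ i, (γ i : AlgebraicClosure ℚ) ^ v i

/-- the degree over `F` of the field generated over `F` by the coordinates of `x` -/
noncomputable def pointDegree (F : IntermediateField ℚ (AlgebraicClosure ℚ)) {n : ℕ}
    (x : Fin n → AlgebraicClosure ℚ) : ℕ :=
  Module.finrank F (IntermediateField.adjoin F (Set.range x))

lemma smooth_mem_field {K : IntermediateField ℚ (AlgebraicClosure ℚ)}
    {Γ : Subgroup (AlgebraicClosure ℚ)ˣ} {P : Finset ℕ} {g : (AlgebraicClosure ℚ)ˣ}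
    (hg : g ∈ smoothRootGroup Γ P) : (g : AlgebraicClosure ℚ) ∈ smoothRootField K Γ P := by
  induction hg using Subgroup.closure_induction with
  | mem g hg =>
    refine (le_sup_right : _ ≤ smoothRootField K Γ P) (IntermediateField.subset_adjoin _ _ ?_)
    rcases hg with ⟨m, hm, h⟩ | ⟨m, hm, h⟩
    · left
      refine ⟨m, hm, ?_⟩
      rw [← Units.val_pow_eq_pow_val, h, Units.val_one]
    · right
      refine ⟨m, hm, g ^ m, h, ?_⟩
      rw [Units.val_pow_eq_pow_val]
  | one => exact one_mem _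
  | mul x y _ _ hx hy => rw [Units.val_mul]; exact mul_mem hx hy
  | inv x _ hx => rw [Units.val_inv_eq_inv_val]; exact inv_mem hx

lemma coordField_le {K : IntermediateField ℚ (AlgebraicClosure ℚ)}
    {Γ Λ : Subgroup (AlgebraicClosure ℚ)ˣ} {P : Finset ℕ} (n : ℕ)
    (h : Λ ≤ smoothRootGroup Γ P) : coordField K (power n Λ) ≤ smoothRootField K Γ P := by
  refine sup_le le_sup_left ?_
  rw [IntermediateField.adjoin_le_iff]
  rintro y ⟨g, hg, i, rfl⟩
  exact smooth_mem_field (h (hg i (Set.mem_univ i)))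

/-- the elements a positive power of which lies in `Γ` -/
def divGroup (Γ : Subgroup (AlgebraicClosure ℚ)ˣ) : Subgroup (AlgebraicClosure ℚ)ˣ where
  carrier := {g | ∃ m : ℕ, 0 < m ∧ g ^ m ∈ Γ}
  mul_mem' := by
    rintro a b ⟨m, hm, ha⟩ ⟨k, hk, hb⟩
    refine ⟨m * k, Nat.mul_pos hm hk, ?_⟩
    rw [mul_pow, pow_mul, mul_comm m k, pow_mul b]
    exact mul_mem (pow_mem ha _) (pow_mem hb _)
  one_mem' := ⟨1, one_pos, by rw [one_pow]; exact one_mem _⟩
  inv_mem' := by
    rintro a ⟨m, hm, ha⟩
    exact ⟨m, hm, by rw [inv_pow]; exact inv_mem ha⟩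

lemma smooth_le_div {Γ : Subgroup (AlgebraicClosure ℚ)ˣ} {P : Finset ℕ} :
    smoothRootGroup Γ P ≤ divGroup Γ := by
  rw [smoothRootGroup, Subgroup.closure_le]
  rintro g (⟨m, hm, h⟩ | ⟨m, hm, h⟩)
  · exact ⟨m, hm, by rw [h]; exact one_mem _⟩
  · exact ⟨m, hm.1, h⟩

lemma divGroup_sat {Γ : Subgroup (AlgebraicClosure ℚ)ˣ} {g : (AlgebraicClosure ℚ)ˣ} {m : ℕ}
    (hm : 0 < m) (h : g ^ m ∈ divGroup Γ) : g ∈ divGroup Γ := by
  obtain ⟨k, hk, h⟩ := h
  exact ⟨m * k, Nat.mul_pos hm hk, by rw [pow_mul]; exact h⟩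

lemma inDiv_of_mem {Γ : Subgroup (AlgebraicClosure ℚ)ˣ} {g : (AlgebraicClosure ℚ)ˣ}
    (h : g ∈ divGroup Γ) : InDivisionGroup Γ (g : AlgebraicClosure ℚ) := by
  obtain ⟨m, hm, h⟩ := h
  exact ⟨m, hm, g ^ m, h, by rw [Units.val_pow_eq_pow_val]⟩

lemma natDegree_le {F L : IntermediateField ℚ (AlgebraicClosure ℚ)} (h : F ≤ L)
    (α : AlgebraicClosure ℚ) :
    (minpoly L α).natDegree ≤ (minpoly F α).natDegree := by
  rw [← orb_ncard, ← orb_ncard]
  exact Set.ncard_le_ncard (orb_mono h α) (orb_finite _ _)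

lemma fd_adjoin (F : IntermediateField ℚ (AlgebraicClosure ℚ)) {n : ℕ}
    (x : Fin n → AlgebraicClosure ℚ) :
    FiniteDimensional F (IntermediateField.adjoin F (Set.range x)) := by
  have : Finite (Set.range x) := Set.finite_range x
  exact IntermediateField.finiteDimensional_adjoin fun y _ =>
    (Pool.Agent.H58P.qb_isIntegral y).tower_top

lemma natDegree_le_pointDegree (F : IntermediateField ℚ (AlgebraicClosure ℚ)) {n : ℕ}
    (x : Fin n → AlgebraicClosure ℚ) (v : Fin n → ℤ) :
    (minpoly F (∏ i, x i ^ v i)).natDegree ≤ pointDegree F x := by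
  have hfd := fd_adjoin F x
  have hmem : ∏ i, x i ^ v i ∈ IntermediateField.adjoin F (Set.range x) :=
    prod_mem fun i _ => zpow_mem (IntermediateField.subset_adjoin F (Set.range x)
      (Set.mem_range_self i)) _
  have h := minpoly.natDegree_le (A := F)
    (⟨∏ i, x i ^ v i, hmem⟩ : IntermediateField.adjoin F (Set.range x))
  rwa [IntermediateField.minpoly_eq] at h

/-- **A polynomial form of Rémond's inequality for translates of subtori.** Let `K` be a number
field, `Γ` a finitely generated subgroup of `ℚ̄*` and `P` a finite set of primes. There is a positive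
integer `A`, depending only on `K`, `Γ` and `P`, with the following property. Let `Λ` be any group
between `Γ` and the group generated by all roots of unity and all `m`-th roots of elements of `Γ`,
`m` a product of primes of `P`. Let `V` be a translate of a subtorus of the torus of any dimension
`n` by a point `x` with algebraic coordinates, and assume that `V` is contained in no proper
`Λ^n`-torsion subvariety. Let `D` be the degree of `x` over `K(Λ^n)`. Then for every nonzero
polynomial `f` with algebraic coefficients which vanishes on `V`, every point `y` of `V` and every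
point `γ` of the saturation of `Λ^n` (for example `γ = 1`), the sum of the `deg_i(f) h(y_i / γ_i)`
is at least `1 / (A D ^ A)`. -/
theorem result :
    ∀ (K : IntermediateField ℚ (AlgebraicClosure ℚ)), FiniteDimensional ℚ K →
    ∀ (Γ : Subgroup (AlgebraicClosure ℚ)ˣ), Γ.FG →
    ∀ (P : Finset ℕ), (∀ p ∈ P, p.Prime) →
      ∃ A : ℕ, 0 < A ∧
        ∀ Λ : Subgroup (AlgebraicClosure ℚ)ˣ, Γ ≤ Λ → Λ ≤ smoothRootGroup Γ P →
        ∀ (n d : ℕ) (x : Fin n → AlgebraicClosure ℚ) (e : Fin n → Fin d → ℤ),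
          IsTransverse (power n Λ) x e →
          ∀ f : MvPolynomial (Fin n) (AlgebraicClosure ℚ), f ≠ 0 →
            (∀ y ∈ translate x e, MvPolynomial.eval y f = 0) →
            ∀ y ∈ translate x e, ∀ γ ∈ saturation (power n Λ),
              1 / ((A : ℝ) * (pointDegree (coordField K (power n Λ)) x : ℝ) ^ A) ≤
                ∑ i, (f.degreeOf i : ℝ) *
                  NumberField.absLogHeight₁ (y i / (γ i : AlgebraicClosure ℚ)) := by
  intro K hK Γ hΓ P hP
  obtain ⟨A, hA, hmain⟩ := Pool.Agent.Results.MP_f61260_nt.SmoothRootsPoly.result K hK Γ hΓ P hP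
  refine ⟨A, hA, ?_⟩
  intro Λ hΓΛ hΛ n d x e hx f hf hV y hy γ hγ
  obtain ⟨v, hv0, hve, hvd⟩ := exists_exponent x e hx.1 f hf hV
  have hα0 : ∏ i, x i ^ v i ≠ 0 := Finset.prod_ne_zero_iff.2 fun i _ => zpow_ne_zero _ (hx.1 i)
  have hconst : ∀ z ∈ translate x e, ∏ i, z i ^ v i = ∏ i, x i ^ v i := by
    rintro z ⟨t, hzt⟩
    have h2 : ∏ i, z i ^ v i =
        ∏ i, (x i * ∏ j, (t j : AlgebraicClosure ℚ) ^ e i j) ^ v i :=
      Finset.prod_congr rfl fun i _ => by rw [hzt i]
    rw [h2, mono_eval]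
    have h3 : chi (fun j => ∑ i, v i * e i j) t = 1 := by
      rw [chi_apply]
      exact Finset.prod_eq_one fun j _ => by rw [hve j, zpow_zero]
    rw [h3, mul_one]
  -- the value is not in the division group
  have hnd : ¬ InDivisionGroup Γ (∏ i, x i ^ v i) := by
    rintro ⟨m, hm, g, hg, hgm⟩
    obtain ⟨i₀, hi₀⟩ : ∃ i, v i ≠ 0 := by
      by_contra hcon
      push Not at hcon
      exact hv0 (funext hcon)
    set k := (v i₀).natAbs with hk
    have hkpos : 0 < k := Int.natAbs_pos.2 hi₀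
    obtain ⟨z, hz⟩ := IsAlgClosed.exists_pow_nat_eq (∏ i, x i ^ v i) hkpos
    have hz0 : z ≠ 0 := by
      rintro rfl
      rw [zero_pow hkpos.ne'] at hz
      exact hα0 hz.symm
    obtain ⟨w, hw0, hwv, hwk⟩ : ∃ w : AlgebraicClosure ℚ, w ≠ 0 ∧
        w ^ v i₀ = ∏ i, x i ^ v i ∧ ∃ a : ℕ, 0 < a ∧ ∃ u ∈ Γ,
          w ^ a = ((u : (AlgebraicClosure ℚ)ˣ) : AlgebraicClosure ℚ) := by
      rcases Int.natAbs_eq (v i₀) with h | h
      · refine ⟨z, hz0, ?_, k * m, Nat.mul_pos hkpos hm, g, hg, ?_⟩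
        · rw [h, zpow_natCast]; exact hz
        · rw [pow_mul, hz, hgm]
      · refine ⟨z⁻¹, inv_ne_zero hz0, ?_, k * m, Nat.mul_pos hkpos hm, g⁻¹, inv_mem hg, ?_⟩
        · rw [h, zpow_neg, zpow_natCast, inv_pow, inv_inv]; exact hz
        · rw [pow_mul, inv_pow, hz, inv_pow, hgm, Units.val_inv_eq_inv_val]
    obtain ⟨a, ha, u, hu, hwu⟩ := hwk
    let δ : Fin n → (AlgebraicClosure ℚ)ˣ := Pi.mulSingle i₀ (Units.mk0 w hw0)
    have hδ : δ ∈ saturation (power n Λ) := by
      refine ⟨a, ha, ?_⟩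
      intro i _
      show (δ ^ a) i ∈ Λ
      rw [Pi.pow_apply]
      by_cases hi : i = i₀
      · subst hi
        have : δ i ^ a = u := by
          apply Units.ext
          rw [Units.val_pow_eq_pow_val]
          simp only [δ, Pi.mulSingle_eq_same, Units.val_mk0]
          exact hwu
        rw [this]
        exact hΓΛ hu
      · have : δ i = 1 := Pi.mulSingle_eq_of_ne hi _
        rw [this, one_pow]
        exact one_mem _
    obtain ⟨z', hz', hne⟩ := hx.2 v hv0 δ hδ
    apply hne
    rw [hconst z' hz', ← hwv, Finset.prod_eq_single i₀]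
    · simp only [δ, Pi.mulSingle_eq_same, Units.val_mk0]
    · intro i _ hi
      have : δ i = 1 := Pi.mulSingle_eq_of_ne hi _
      rw [this]
      simp
    · intro h
      exact absurd (Finset.mem_univ _) h
  -- the point of the saturation
  have hγdiv : ∀ i, γ i ∈ divGroup Γ := by
    obtain ⟨m, hm, hγm⟩ := hγ
    intro i
    have h1 : (γ ^ m) i ∈ Λ := hγm i (Set.mem_univ i)
    rw [Pi.pow_apply] at h1
    exact divGroup_sat hm (smooth_le_div (hΛ h1))
  have hγ' : InDivisionGroup Γ (∏ i, (γ i : AlgebraicClosure ℚ) ^ v i) := by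
    have h1 : ∏ i, γ i ^ v i ∈ divGroup Γ := prod_mem fun i _ => zpow_mem (hγdiv i) _
    have h2 := inDiv_of_mem h1
    rw [Units.coe_prod] at h2
    simp only [Units.val_zpow_eq_zpow_val] at h2
    exact h2
  have h1 := hmain _ hα0 hnd _ hγ'
  -- degrees
  have hF : coordField K (power n Λ) ≤ smoothRootField K Γ P := coordField_le n hΛ
  have hdeg : (minpoly (smoothRootField K Γ P) (∏ i, x i ^ v i)).natDegree ≤
      pointDegree (coordField K (power n Λ)) x :=
    (natDegree_le hF _).trans (natDegree_le_pointDegree _ x v)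
  have hdpos : 0 < (minpoly (smoothRootField K Γ P) (∏ i, x i ^ v i)).natDegree :=
    minpoly.natDegree_pos (Pool.Agent.H58P.qb_isIntegral _).tower_top
  have h0 : 1 / ((A : ℝ) * (pointDegree (coordField K (power n Λ)) x : ℝ) ^ A) ≤
      1 / ((A : ℝ) *
        ((minpoly (smoothRootField K Γ P) (∏ i, x i ^ v i)).natDegree : ℝ) ^ A) := by
    apply one_div_le_one_div_of_le
    · have : (0 : ℝ) < A := by exact_mod_cast hA
      have : (0 : ℝ) < ((minpoly (smoothRootField K Γ P) (∏ i, x i ^ v i)).natDegree : ℝ) := by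
        exact_mod_cast hdpos
      positivity
    · have h3 : ((minpoly (smoothRootField K Γ P) (∏ i, x i ^ v i)).natDegree : ℝ) ≤
          (pointDegree (coordField K (power n Λ)) x : ℝ) := by exact_mod_cast hdeg
      gcongr
  refine h0.trans (h1.trans ?_)
  have hht : ∀ w : AlgebraicClosure ℚ, NumberField.absLogHeight₁ w = ht w := fun w =>
    Pool.Agent.H58P.absLogHeight₁_eq _
  simp only [hht]
  have hy0 : ∀ i, y i ≠ 0 := by
    obtain ⟨t, hyt⟩ := hy
    intro i
    rw [hyt i]
    exact mul_ne_zero (hx.1 i) (Finset.prod_ne_zero_iff.2 fun j _ =>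
      zpow_ne_zero _ (Units.ne_zero _))
  have heq : (∏ i, x i ^ v i) / ∏ i, (γ i : AlgebraicClosure ℚ) ^ v i =
      ∏ i, (y i / (γ i : AlgebraicClosure ℚ)) ^ v i := by
    rw [← hconst y hy, ← Finset.prod_div_distrib]
    exact Finset.prod_congr rfl fun i _ => by rw [div_zpow]
  rw [heq]
  refine (ht_prod_le _ _).trans (Finset.sum_le_sum fun i _ => ?_)
  rw [ht_zpow _ (div_ne_zero (hy0 i) (Units.ne_zero _))]
  refine mul_le_mul_of_nonneg_right ?_ (ht_nonneg _)
  have h4 : ((|v i| : ℤ) : ℝ) ≤ ((f.degreeOf i : ℤ) : ℝ) := by exact_mod_cast hvd i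
  rw [Int.cast_abs] at h4
  exact_mod_cast h4

end Pool.Agent.Results.MP_187c26_nt.TranslatesBoundedDegree
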