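import Mathlib
import Pool.Agent.R202.RS.Fin1
import Pool.Agent.R202.RS.Prague
import Pool.Agent.R202.RS.NormPoly
import Pool.Agent.R202.RS.Lower
import Pool.Agent.R202.RS.Arith
import Pool.Agent.R202.RS.Reduce
import Pool.Agent.R202.RS.Unitary
import Pool.Agent.R202.RS.MainK

/-!
# Rémond's inequality for points of the multiplicative group outside the relatively reciprocal points

`G` is the multiplicative group, `K` a field of algebraic numbers in `ℂ`, `Γ` any group of nonzero
algebraic numbers and `L = K(Γ)`. The obstruction index `ω_L(P)` of a point `P = α` of `G` is the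
least degree of a nonzero polynomial with coefficients in `L` which vanishes at `α`. Assume that
`1 / conj α` is not a conjugate of `α` over `L`. Then
`ω_L(P) h(P) ≥ (1 / 2) log ((1 + √5) / 2)` in each of the following cases:

* the minimal polynomial of `α` over `L` has all its coefficients in a subfield of `L` which is
  totally real or a CM field (possibly of infinite degree);
* `K` is totally real or a CM field and all the conjugates of the elements of `Γ` have absolute
  value `1` (for example `Γ` is any group of roots of unity): then `L` is such a field itself.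
-/

set_option autoImplicit false

open Polynomial ComplexConjugate

namespace Pool.Agent.Results.MP_187c26_nt.UnitaryPoints

/-- The field `K(Γ)`. -/
noncomputable def fieldOf (K : IntermediateField ℚ ℂ) (Γ : Subgroup ℂˣ) :
    IntermediateField ℚ ℂ :=
  K ⊔ IntermediateField.adjoin ℚ {z : ℂ | ∃ g ∈ Γ, (g : ℂ) = z}

/-- For an irreducible integral polynomial `f`, the absolute logarithmic Weil height of its
roots. -/
noncomputable def height (f : ℤ[X]) : ℝ :=
  Real.log (f.map (Int.castRingHom ℂ)).mahlerMeasure / (f.natDegree : ℝ)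

/-- `E` is totally real or a CM field (possibly of infinite degree): complex conjugation comes from
an endomorphism of `E` which does not depend on the embedding of `E` in `ℂ`. -/
def RealOrCM (E : IntermediateField ℚ ℂ) : Prop :=
  ∃ c : E →+* E, ∀ (σ : E →+* ℂ) (y : E), conj (σ y) = σ (c y)

/-- `1 / conj α` is a conjugate of `α` over `L`. -/
def RelativelyReciprocal (L : IntermediateField ℚ ℂ) (α : ℂ) : Prop :=
  aeval (conj α)⁻¹ (minpoly L α) = 0

/-- All elements of `Γ` are algebraic, and all their conjugates have absolute value `1`. -/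
def Unitary (Γ : Subgroup ℂˣ) : Prop :=
  ∀ g ∈ Γ, IsAlgebraic ℚ (g : ℂ) ∧ ∀ w ∈ (minpoly ℚ (g : ℂ)).aroots ℂ, ‖w‖ = 1

/-- Rémond's inequality at the point `α` with the constant `(1 / 2) log ((1 + √5) / 2)`: every
nonzero polynomial `Q` over `L` with `Q(α) = 0` has degree at least this constant divided by the
height of `α`. -/
def Inequality (L : IntermediateField ℚ ℂ) (α : ℂ) : Prop :=
  ∀ Q : L[X], Q ≠ 0 → aeval α Q = 0 → ∀ f : ℤ[X], Irreducible f → aeval α f = 0 →
    Real.log Real.goldenRatio / 2 ≤ (Q.natDegree : ℝ) * height f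

/-- **Rémond's inequality outside the relatively reciprocal points.** -/
theorem result :
    (∀ K : IntermediateField ℚ ℂ, Algebra.IsAlgebraic ℚ K →
      ∀ Γ : Subgroup ℂˣ, (∀ g ∈ Γ, IsAlgebraic ℚ (g : ℂ)) →
      ∀ E : IntermediateField ℚ ℂ, E ≤ fieldOf K Γ → RealOrCM E →
      ∀ α : ℂ, α ≠ 0 → IsAlgebraic ℚ α → (∀ i, ((minpoly (fieldOf K Γ) α).coeff i : ℂ) ∈ E) →
        ¬ RelativelyReciprocal (fieldOf K Γ) α → Inequality (fieldOf K Γ) α) ∧
    (∀ K : IntermediateField ℚ ℂ, Algebra.IsAlgebraic ℚ K → RealOrCM K →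
      ∀ Γ : Subgroup ℂˣ, Unitary Γ → RealOrCM (fieldOf K Γ) ∧
      ∀ α : ℂ, α ≠ 0 → IsAlgebraic ℚ α → ¬ RelativelyReciprocal (fieldOf K Γ) α →
        Inequality (fieldOf K Γ) α) := by
  have hlow := R202.RS.lower R202.RS.prague
  have hK := R202.RS.mainK R202.RS.normPoly hlow R202.RS.arith
  have key : ∀ K : IntermediateField ℚ ℂ, Algebra.IsAlgebraic ℚ K →
      ∀ Γ : Subgroup ℂˣ, (∀ g ∈ Γ, IsAlgebraic ℚ (g : ℂ)) →
      ∀ E : IntermediateField ℚ ℂ, E ≤ fieldOf K Γ → RealOrCM E →
      ∀ α : ℂ, α ≠ 0 → IsAlgebraic ℚ α → (∀ i, ((minpoly (fieldOf K Γ) α).coeff i : ℂ) ∈ E) →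
        ¬ RelativelyReciprocal (fieldOf K Γ) α → Inequality (fieldOf K Γ) α := by
    intro K hKa Γ hΓ E hEF hE α h0 hα hc hne Q hQ hQα f hf hfα
    have hLa : Algebra.IsAlgebraic ℚ (fieldOf K Γ) := by
      have h2 : Algebra.IsAlgebraic ℚ
          (IntermediateField.adjoin ℚ ((K : Set ℂ) ∪ {z : ℂ | ∃ g ∈ Γ, (g : ℂ) = z})) :=
        IntermediateField.isAlgebraic_adjoin fun x hx => by
          rcases hx with hx | ⟨g, hg, rfl⟩
          · have h3 := hKa.isAlgebraic (⟨x, hx⟩ : K)
            exact ((isAlgebraic_algebraMap_iff (A := ℂ) (algebraMap K ℂ).injective).2 h3).isIntegral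
          · exact (hΓ g hg).isIntegral
      refine R202.RS.isAlgebraic_of_le (sup_le (fun x hx => ?_) ?_) h2
      · exact IntermediateField.subset_adjoin ℚ _ (Or.inl hx)
      · exact IntermediateField.adjoin.mono ℚ _ _ (Set.subset_union_right)
    have h := R202.RS.main_F hK R202.RS.reduce (fieldOf K Γ) E hEF
      (R202.RS.isAlgebraic_of_le hEF hLa) hE α h0 hα hc hne f hf hfα
    have hint : IsIntegral (fieldOf K Γ) α := hα.isIntegral.tower_top
    have hd : 0 < (minpoly (fieldOf K Γ) α).natDegree := minpoly.natDegree_pos hint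
    have hle : (minpoly (fieldOf K Γ) α).natDegree ≤ Q.natDegree :=
      Polynomial.natDegree_le_of_dvd (minpoly.dvd _ _ hQα) hQ
    have hd' : (0 : ℝ) < ((minpoly (fieldOf K Γ) α).natDegree : ℝ) := by exact_mod_cast hd
    have hle' : ((minpoly (fieldOf K Γ) α).natDegree : ℝ) ≤ (Q.natDegree : ℝ) := by
      exact_mod_cast hle
    rw [div_le_iff₀ hd'] at h
    have hpos : 0 ≤ Real.log Real.goldenRatio / 2 :=
      div_nonneg (Real.log_nonneg Real.one_lt_goldenRatio.le) (by norm_num)
    have h4 : Real.log Real.goldenRatio / 2 ≤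
        height f * ((minpoly (fieldOf K Γ) α).natDegree : ℝ) := h
    have hh : 0 ≤ height f := by
      by_contra hcon
      push Not at hcon
      have := mul_neg_of_neg_of_pos hcon hd'
      linarith
    calc Real.log Real.goldenRatio / 2 ≤
          height f * ((minpoly (fieldOf K Γ) α).natDegree : ℝ) := h4
      _ ≤ (Q.natDegree : ℝ) * height f := by
        rw [mul_comm]
        exact mul_le_mul_of_nonneg_right hle' hh
  refine ⟨key, fun K hKa hKr Γ hΓ => ?_⟩
  have h1 : RealOrCM (fieldOf K Γ) := R202.RS.unitary K _ hKr (by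
    rintro s ⟨g, hg, rfl⟩
    exact hΓ g hg)
  exact ⟨h1, fun α h0 hα hne => key K hKa Γ (fun g hg => (hΓ g hg).1) (fieldOf K Γ) le_rfl h1 α
    h0 hα (fun i => Subtype.coe_prop _) hne⟩

end Pool.Agent.Results.MP_187c26_nt.UnitaryPoints
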